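import Pool.Agent.W875.GE.Spec

/-! Project GE (helper875), Part J, by helper988. -/

set_option autoImplicit false

namespace W988.GE

open W875.GE TensorProduct MulOpposite

universe u

section words

variable {K : Type u} [Field K] {n : ℕ}

theorem wd_nil {S : Type*} [Monoid S] (X : Fin n → S) : wd X [] = 1 := by simp [wd]

theorem wd_cons {S : Type*} [Monoid S] (X : Fin n → S) (i : Fin n) (w : List (Fin n)) :
    wd X (i :: w) = X i * wd X w := by simp [wd]

theorem wd_append {S : Type*} [Monoid S] (X : Fin n → S) (v w : List (Fin n)) :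
    wd X (v ++ w) = wd X v * wd X w := by simp [wd]

theorem wd_map {S T : Type*} [Monoid S] [Monoid T] (f : S →* T) (X : Fin n → S)
    (w : List (Fin n)) : f (wd X w) = wd (fun i => f (X i)) w := by
  induction w with
  | nil => simp [wd_nil]
  | cons i w ih => simp [wd_cons, ih]

theorem Hmg_mem (u v : List (Fin n)) :
    wd (FreeAlgebra.ι K) u ⊗ₜ[K] op (wd (FreeAlgebra.ι K) v) ∈
      Hmg (K := K) (n := n) (u.length + v.length) :=
  Submodule.subset_span ⟨u, v, rfl, rfl⟩

theorem one_mem_Hmg : (1 : RR K n) ∈ Hmg (K := K) (n := n) 0 := by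
  have h := Hmg_mem (K := K) (n := n) [] []
  simpa [wd_nil, Algebra.TensorProduct.one_def] using h

theorem Hmg_mul {k l : ℕ} {z z' : RR K n} (hz : z ∈ Hmg k) (hz' : z' ∈ Hmg l) :
    z * z' ∈ Hmg (k + l) := by
  refine Submodule.span_induction ?_ ?_ ?_ ?_ hz
  · rintro x ⟨u, v, huv, rfl⟩
    refine Submodule.span_induction ?_ ?_ ?_ ?_ hz'
    · rintro y ⟨u', v', huv', rfl⟩
      rw [Algebra.TensorProduct.tmul_mul_tmul, ← wd_append, ← op_mul, ← wd_append]
      have h := Hmg_mem (K := K) (n := n) (u ++ u') (v' ++ v)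
      have e : (u ++ u').length + (v' ++ v).length = k + l := by
        simp only [List.length_append]; omega
      rwa [e] at h
    · simp
    · intro a b _ _ ha hb
      rw [mul_add]; exact Submodule.add_mem _ ha hb
    · intro c a _ ha
      rw [mul_smul_comm]; exact Submodule.smul_mem _ _ ha
  · simp
  · intro a b _ _ ha hb
    rw [add_mul]; exact Submodule.add_mem _ ha hb
  · intro c a _ ha
    rw [smul_mul_assoc]; exact Submodule.smul_mem _ _ ha

/-- the derivations on words -/
theorem d_wd {d : Fin n → FA K n →ₗ[K] RR K n} (hd : IsD d) (i : Fin n) (w : List (Fin n)) :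
    d i (wd (FreeAlgebra.ι K) w) ∈ Hmg (K := K) (n := n) (w.length - 1) := by
  induction w with
  | nil =>
    have h := hd.mul i 1 1
    simp only [mul_one, MulOpposite.op_one] at h
    have h1 : ((1 : FA K n) ⊗ₜ[K] (1 : (FA K n)ᵐᵒᵖ)) = 1 := rfl
    rw [h1, one_mul] at h
    have h2 : d i 1 = 0 := by
      have := left_eq_add.mp h
      exact this
    rw [wd_nil, h2]; exact Submodule.zero_mem _
  | cons j w ih =>
    rw [wd_cons, hd.mul, hd.ι]
    refine Submodule.add_mem _ ?_ ?_
    · by_cases hij : i = j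
      · rw [if_pos hij, mul_one]
        have h := Hmg_mem (K := K) (n := n) [] w
        simpa [wd_nil] using h
      · rw [if_neg hij, mul_zero]; exact Submodule.zero_mem _
    · rcases w with _ | ⟨k, w⟩
      · have h := hd.mul i 1 1
        simp only [mul_one, MulOpposite.op_one] at h
        have h1 : ((1 : FA K n) ⊗ₜ[K] (1 : (FA K n)ᵐᵒᵖ)) = 1 := rfl
        rw [h1, one_mul] at h
        have h2 : d i 1 = 0 := left_eq_add.mp h
        rw [wd_nil, h2, mul_zero]; exact Submodule.zero_mem _
      · have h := Hmg_mem (K := K) (n := n) [j] []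
        have h3 := Hmg_mul h ih
        have e : ([j] : List (Fin n)).length + ([] : List (Fin n)).length +
            ((k :: w).length - 1) = (j :: k :: w).length - 1 := by
          simp only [List.length_cons, List.length_nil]; omega
        rw [e] at h3
        simpa [wd_cons, wd_nil] using h3

end words

/-- evaluation -/
theorem exists_ev {K : Type u} [Field K] {n : ℕ} {S : Type*} [Ring S] [Algebra K S]
    (X Y : Fin n → S) (hXY : ∀ i j, X i * Y j = Y j * X i) :
    ∃ ev : RR K n →ₐ[K] S, (∀ i, ev (FreeAlgebra.ι K i ⊗ₜ[K] 1) = X i) ∧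
      (∀ i, ev (1 ⊗ₜ[K] op (FreeAlgebra.ι K i)) = Y i) ∧
      ∀ u v : List (Fin n), ev (wd (FreeAlgebra.ι K) u ⊗ₜ[K] op (wd (FreeAlgebra.ι K) v)) =
        wd X u * wd Y v.reverse := by
  set f : FA K n →ₐ[K] S := FreeAlgebra.lift K X with hf
  set g0 : FA K n →ₐ[K] Sᵐᵒᵖ := FreeAlgebra.lift K (fun i => op (Y i)) with hg0
  set g : (FA K n)ᵐᵒᵖ →ₐ[K] S := AlgHom.opComm g0 with hg
  have hgop : ∀ a, g (op a) = unop (g0 a) := fun a => rfl
  have hfx : ∀ i, f (FreeAlgebra.ι K i) = X i := fun i => by simp [hf]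
  have hg0x : ∀ i, g0 (FreeAlgebra.ι K i) = op (Y i) := fun i => by simp [hg0]
  have hcomm1 : ∀ (i : Fin n) (b : FA K n), Commute (X i) (unop (g0 b)) := by
    intro i b
    induction b using FreeAlgebra.induction with
    | grade0 r =>
      rw [AlgHom.commutes, MulOpposite.algebraMap_apply, unop_op]
      exact (Algebra.commutes r (X i)).symm
    | grade1 j => rw [hg0x, unop_op]; exact hXY i j
    | mul a b ha hb => rw [map_mul, unop_mul]; exact hb.mul_right ha
    | add a b ha hb => rw [map_add, unop_add]; exact ha.add_right hb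
  have hcomm : ∀ (x : FA K n) (y : (FA K n)ᵐᵒᵖ), Commute (f x) (g y) := by
    intro x y
    induction x using FreeAlgebra.induction with
    | grade0 r => rw [AlgHom.commutes]; exact Algebra.commutes r _
    | grade1 i => rw [hfx]; exact hcomm1 i (unop y)
    | mul a b ha hb => rw [map_mul]; exact ha.mul_left hb
    | add a b ha hb => rw [map_add]; exact ha.add_left hb
  refine ⟨Algebra.TensorProduct.lift f g hcomm, ?_, ?_, ?_⟩
  · intro i
    rw [Algebra.TensorProduct.lift_tmul, map_one, mul_one, hfx]
  · intro i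
    rw [Algebra.TensorProduct.lift_tmul, map_one, one_mul, hgop, hg0x, unop_op]
  · intro u v
    rw [Algebra.TensorProduct.lift_tmul, hgop]
    congr 1
    · have := wd_map (f : FA K n →* S) (FreeAlgebra.ι K) u
      simpa [hfx] using this
    · induction v with
      | nil => simp [wd_nil]
      | cons i v ih =>
        rw [wd_cons, map_mul, unop_mul, ih, hg0x, unop_op, List.reverse_cons, wd_append,
          wd_cons, wd_nil, mul_one]


section scale

variable {n q : ℕ} {C : Type u} [CommRing C]

theorem map_monomial_mul (M N : Matrix (Fin q) (Fin q) C) (k l : ℕ) :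
    M.map (fun c => Polynomial.monomial k c) * N.map (fun c => Polynomial.monomial l c) =
      (M * N).map (fun c => Polynomial.monomial (k + l) c) := by
  ext1 i j
  simp only [Matrix.mul_apply, Matrix.map_apply, map_sum, Polynomial.monomial_mul_monomial]

theorem wd_monomial (X : Fin n → Matrix (Fin q) (Fin q) C) (w : List (Fin n)) :
    wd (fun i => (X i).map (fun c => Polynomial.monomial 1 c)) w =
      (wd X w).map (fun c => Polynomial.monomial w.length c) := by
  induction w with
  | nil =>
    rw [wd_nil, wd_nil]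
    ext1 i j
    by_cases h : i = j
    · subst h; simp
    · simp [Matrix.one_apply_ne h]
  | cons i w ih =>
    rw [wd_cons, wd_cons, ih, map_monomial_mul, List.length_cons, Nat.add_comm]

end scale

section main

variable {K : Type u} [Field K] {n : ℕ}

theorem Hmg_eq_span (k : ℕ) : Hmg (K := K) (n := n) k = Submodule.span K (Set.range
    (fun p : {p : List (Fin n) × List (Fin n) // p.1.length + p.2.length = k} =>
      wd (FreeAlgebra.ι K) p.1.1 ⊗ₜ[K] op (wd (FreeAlgebra.ι K) p.1.2.reverse))) := by
  apply le_antisymm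
  · refine Submodule.span_le.mpr ?_
    rintro z ⟨u, v, huv, rfl⟩
    refine Submodule.subset_span ⟨⟨(u, v.reverse), by simpa using huv⟩, ?_⟩
    simp
  · refine Submodule.span_le.mpr ?_
    rintro z ⟨⟨⟨u, v⟩, huv⟩, rfl⟩
    exact Submodule.subset_span ⟨u, v.reverse, by simpa using huv, rfl⟩

theorem ev_inj {S : Type u} [Ring S] [Algebra K S] {X Y : Fin n → S} {k : ℕ}
    (hli : LinearIndependent K
      (fun p : {p : List (Fin n) × List (Fin n) // p.1.length + p.2.length = k} =>
        wd X p.1.1 * wd Y p.1.2))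
    (ev : RR K n →ₐ[K] S)
    (hev : ∀ u v : List (Fin n), ev (wd (FreeAlgebra.ι K) u ⊗ₜ[K] op (wd (FreeAlgebra.ι K) v)) =
        wd X u * wd Y v.reverse) (z : RR K n) (hz : z ∈ Hmg (K := K) (n := n) k)
    (h0 : ev z = 0) : z = 0 := by
  rw [Hmg_eq_span, Finsupp.mem_span_range_iff_exists_finsupp] at hz
  obtain ⟨c, rfl⟩ := hz
  have h1 : Finsupp.linearCombination K
      (fun p : {p : List (Fin n) × List (Fin n) // p.1.length + p.2.length = k} =>
        wd X p.1.1 * wd Y p.1.2) c = 0 := by
    rw [Finsupp.linearCombination_apply, ← h0, Finsupp.sum, Finsupp.sum, map_sum]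
    refine Finset.sum_congr rfl fun p _ => ?_
    rw [map_smul, hev, List.reverse_reverse]
  have h2 : c = 0 := by
    rw [linearIndependent_iff] at hli
    exact hli c h1
  rw [h2]; simp

theorem ev_scale {C : Type u} [CommRing C] [Algebra K C] {q : ℕ} {S : Type u} [Ring S]
    [Algebra K S] (ρ : S →ₐ[K] Matrix (Fin q) (Fin q) C) {X Y : Fin n → S}
    (ev : RR K n →ₐ[K] S)
    (hev : ∀ u v : List (Fin n), ev (wd (FreeAlgebra.ι K) u ⊗ₜ[K] op (wd (FreeAlgebra.ι K) v)) =
        wd X u * wd Y v.reverse)
    (Ψ : RR K n →ₐ[K] Matrix (Fin q) (Fin q) (Polynomial C))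
    (hΨ : ∀ u v : List (Fin n), Ψ (wd (FreeAlgebra.ι K) u ⊗ₜ[K] op (wd (FreeAlgebra.ι K) v)) =
        wd (fun i => (ρ (X i)).map (fun c => Polynomial.monomial 1 c)) u *
          wd (fun i => (ρ (Y i)).map (fun c => Polynomial.monomial 1 c)) v.reverse)
    (k : ℕ) (z : RR K n) (hz : z ∈ Hmg (K := K) (n := n) k) :
    Ψ z = (ρ (ev z)).map (fun c => Polynomial.monomial k c) := by
  refine Submodule.span_induction ?_ ?_ ?_ ?_ hz
  · rintro x ⟨u, v, huv, rfl⟩
    rw [hΨ, hev, wd_monomial (fun i => ρ (X i)), wd_monomial (fun i => ρ (Y i)),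
      map_monomial_mul, map_mul, List.length_reverse, huv]
    have h1 := wd_map (ρ : S →* Matrix (Fin q) (Fin q) C) X u
    have h2 := wd_map (ρ : S →* Matrix (Fin q) (Fin q) C) Y v.reverse
    simp only [MonoidHom.coe_coe] at h1 h2
    rw [h1, h2]
  · rw [map_zero, map_zero, map_zero]
    ext1 i j; simp
  · intro a b _ _ ha hb
    rw [map_add, ha, hb, map_add, map_add]
    ext1 i j; simp
  · intro c a _ ha
    rw [map_smul, ha, map_smul, map_smul]
    ext1 i j
    simp only [Matrix.smul_apply, Matrix.map_apply, Polynomial.smul_monomial]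

/-- The two-sided inverse from the graded pieces. -/
theorem isUnit_of_pieces {R : Type u} [Ring R] (P G : ℕ → R) (e N : ℕ)
    (hPe : ∀ l, e < l → P l = 0) (hGN : ∀ k, N < k → G k = 0)
    (h1 : PowerSeries.mk P * PowerSeries.mk G = 1) (h2 : PowerSeries.mk G * PowerSeries.mk P = 1) :
    IsUnit (∑ l ∈ Finset.range (e + 1), P l) := by
  classical
  set pp : Polynomial R := ∑ l ∈ Finset.range (e + 1), Polynomial.monomial l (P l) with hpp
  set gg : Polynomial R := ∑ l ∈ Finset.range (N + 1), Polynomial.monomial l (G l) with hgg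
  have cp : ∀ k, pp.coeff k = P k := by
    intro k
    rw [hpp, Polynomial.finsetSum_coeff]
    simp only [Polynomial.coeff_monomial]
    by_cases hk : k ∈ Finset.range (e + 1)
    · rw [Finset.sum_ite_eq' (Finset.range (e + 1)) k P, if_pos hk]
    · rw [Finset.sum_ite_eq' (Finset.range (e + 1)) k P, if_neg hk]
      rw [hPe k (by simpa [Nat.lt_succ_iff, Nat.not_le] using hk)]
  have cg : ∀ k, gg.coeff k = G k := by
    intro k
    rw [hgg, Polynomial.finsetSum_coeff]
    simp only [Polynomial.coeff_monomial]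
    by_cases hk : k ∈ Finset.range (N + 1)
    · rw [Finset.sum_ite_eq' (Finset.range (N + 1)) k G, if_pos hk]
    · rw [Finset.sum_ite_eq' (Finset.range (N + 1)) k G, if_neg hk]
      rw [hGN k (by simpa [Nat.lt_succ_iff, Nat.not_le] using hk)]
  have m1 : pp * gg = 1 := by
    ext k
    have h := congrArg (PowerSeries.coeff k) h1
    rw [PowerSeries.coeff_mul, PowerSeries.coeff_one] at h
    rw [Polynomial.coeff_mul, Polynomial.coeff_one]
    simp only [cp, cg]
    simpa [eq_comm] using h
  have m2 : gg * pp = 1 := by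
    ext k
    have h := congrArg (PowerSeries.coeff k) h2
    rw [PowerSeries.coeff_mul, PowerSeries.coeff_one] at h
    rw [Polynomial.coeff_mul, Polynomial.coeff_one]
    simp only [cp, cg]
    simpa [eq_comm] using h
  have e1 := congrArg (Polynomial.eval₂ (RingHom.id R) 1) m1
  have e2 := congrArg (Polynomial.eval₂ (RingHom.id R) 1) m2
  rw [Polynomial.eval₂_mul_noncomm _ _ (fun k => Commute.one_right _), Polynomial.eval₂_one]
    at e1 e2
  have hp : Polynomial.eval₂ (RingHom.id R) 1 pp = ∑ l ∈ Finset.range (e + 1), P l := by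
    rw [hpp, Polynomial.eval₂_finsetSum]
    simp
  rw [hp] at e1 e2
  exact ⟨⟨_, _, e1, e2⟩, rfl⟩


/-- the degree zero part of the Jacobian matrix -/
theorem c_zero_jac {d : Fin n → FA K n →ₗ[K] RR K n} (hd : IsD d) {θ : FA K n →ₐ[K] FA K n}
    (hθ : Approx θ) (c : ℕ → RR K n →ₗ[K] RR K n)
    (hc1 : ∀ k, ∀ z ∈ Hmg (K := K) (n := n) k, c k z = z)
    (hc0 : ∀ k l, k ≠ l → ∀ z ∈ Hmg (K := K) (n := n) l, c k z = 0) (i j : Fin n) :
    c 0 (d i (θ (FreeAlgebra.ι K j))) = if i = j then 1 else 0 := by
  have key : ∀ a ∈ Ord K n 2, c 0 (d i a) = 0 := by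
    intro a ha
    refine Submodule.span_induction ?_ ?_ ?_ ?_ ha
    · rintro x ⟨w, hw, rfl⟩
      exact hc0 0 (w.length - 1) (by omega) _ (d_wd hd i w)
    · simp
    · intro a b _ _ ha hb; rw [map_add, map_add, ha, hb, add_zero]
    · intro r a _ ha; rw [map_smul, map_smul, ha, smul_zero]
  have h := key _ (hθ.one j)
  rw [map_sub, map_sub, sub_eq_zero] at h
  rw [h, hd.ι]
  split_ifs
  · exact hc1 0 1 one_mem_Hmg
  · simp

theorem partJ (hS : PartS.{u}) (hDN : PartDN.{u}) (hJ1 : PartJ1.{u}) (hG : PartG.{u}) :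
    PartJ.{u} := by
  intro K _ n d hd θ hθ
  classical
  obtain ⟨c, hcH, hcfin, -, hc1, hc0⟩ := hG K n
  set J : Matrix (Fin n) (Fin n) (RR K n) := Jac d θ with hJ
  set P : ℕ → Matrix (Fin n) (Fin n) (RR K n) := fun l => J.map (c l) with hP
  have hPmem : ∀ l i j, P l i j ∈ Hmg (K := K) (n := n) l := fun l i j => hcH l _
  have hP0 : P 0 = 1 := by
    ext1 a b
    show c 0 (J a b) = _
    rw [hJ]
    show c 0 (d b (θ (FreeAlgebra.ι K a))) = _
    rw [c_zero_jac hd hθ c hc1 hc0, Matrix.one_apply]
    by_cases h : a = b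
    · rw [if_pos h, if_pos h.symm]
    · rw [if_neg h, if_neg (fun h' => h h'.symm)]
  -- a common bound
  choose NN hNN1 hNN2 using hcfin
  set e : ℕ := Finset.univ.sup (fun p : Fin n × Fin n => NN (J p.1 p.2)) with he
  have hNe : ∀ a b, NN (J a b) ≤ e := fun a b =>
    Finset.le_sup (f := fun p : Fin n × Fin n => NN (J p.1 p.2)) (Finset.mem_univ (a, b))
  have hPe : ∀ l, e < l → P l = 0 := by
    intro l hl
    ext1 a b
    exact hNN1 (J a b) l (lt_of_le_of_lt (hNe a b) hl)
  have hJsum : J = ∑ l ∈ Finset.range (e + 1), P l := by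
    ext1 a b
    rw [Matrix.sum_apply]
    conv_lhs => rw [hNN2 (J a b)]
    refine Finset.sum_subset ?_ ?_
    · intro x hx
      rw [Finset.mem_range] at hx ⊢
      have := hNe a b
      omega
    · intro x _ hx
      rw [Finset.mem_range] at hx
      exact hNN1 (J a b) x (by omega)
  -- the inverse power series
  set pp : PowerSeries (Matrix (Fin n) (Fin n) (RR K n)) := PowerSeries.mk P with hpp
  have hcc : PowerSeries.constantCoeff pp =
      ((1 : (Matrix (Fin n) (Fin n) (RR K n))ˣ) : Matrix (Fin n) (Fin n) (RR K n)) := by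
    rw [hpp, PowerSeries.constantCoeff_mk, hP0]; rfl
  set gs := PowerSeries.invOfUnit pp 1 with hgs
  have m1 : pp * gs = 1 := PowerSeries.mul_invOfUnit pp 1 hcc
  have m2 : gs * pp = 1 := PowerSeries.invOfUnit_mul pp 1 hcc
  set G : ℕ → Matrix (Fin n) (Fin n) (RR K n) := fun k => PowerSeries.coeff k gs with hGd
  have hgmk : gs = PowerSeries.mk G := by
    ext1 k; rw [PowerSeries.coeff_mk]
  have hrec0 : ∀ k, ∑ l ∈ Finset.range (k + 1), P l * G (k - l) = if k = 0 then 1 else 0 := by
    intro k
    have h := congrArg (PowerSeries.coeff k) m1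
    rw [PowerSeries.coeff_mul, PowerSeries.coeff_one] at h
    rw [← h]
    rw [Finset.Nat.sum_antidiagonal_eq_sum_range_succ_mk]
    refine Finset.sum_congr rfl fun l _ => ?_
    rw [hpp, PowerSeries.coeff_mk]
  have hG0 : G 0 = 1 := by
    have h := hrec0 0
    simpa [hP0] using h
  have hrec : ∀ k, ∑ l ∈ Finset.range (k + 2), P l * G (k + 1 - l) = 0 := by
    intro k
    have h := hrec0 (k + 1)
    simpa using h
  have hGmem : ∀ k i j, G k i j ∈ Hmg (K := K) (n := n) k := by
    intro k
    induction k using Nat.strong_induction_on with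
    | _ k ih =>
      rcases k with _ | k
      · intro i j
        rw [hG0, Matrix.one_apply]
        split_ifs
        · exact one_mem_Hmg
        · exact Submodule.zero_mem _
      · intro i j
        have h := hrec k
        rw [Finset.sum_range_succ'] at h
        simp only [Nat.sub_zero, hP0, one_mul] at h
        have h2 : G (k + 1) = - ∑ l ∈ Finset.range (k + 1), P (l + 1) * G (k + 1 - (l + 1)) := by
          rw [eq_neg_iff_add_eq_zero, add_comm]; exact h
        rw [h2, Matrix.neg_apply, Matrix.sum_apply]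
        refine Submodule.neg_mem _ (Submodule.sum_mem _ fun l hl => ?_)
        rw [Finset.mem_range] at hl
        rw [Matrix.mul_apply]
        refine Submodule.sum_mem _ fun x _ => ?_
        have h3 := Hmg_mul (hPmem (l + 1) i x) (ih (k + 1 - (l + 1)) (by omega) x j)
        have e3 : l + 1 + (k + 1 - (l + 1)) = k + 1 := by omega
        rwa [e3] at h3
  -- vanishing
  have hGN : ∀ k, n * e < k → G k = 0 := by
    intro k hk
    obtain ⟨S, _, _, C, _, _, q, ρ, X, Y, hSd, hCd, hρ, hDep, hXY, hli⟩ := hS K n k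
    obtain ⟨ev, hevX, hevY, hev⟩ := exists_ev (K := K) X Y hXY
    have hXY' : ∀ i j, (ρ (X i)).map (fun c => Polynomial.monomial 1 c) *
        (ρ (Y j)).map (fun c => Polynomial.monomial 1 c) =
        (ρ (Y j)).map (fun c => Polynomial.monomial 1 c) *
        (ρ (X i)).map (fun c => Polynomial.monomial 1 c) := by
      intro i j
      rw [map_monomial_mul, map_monomial_mul, ← map_mul, ← map_mul, hXY]
    obtain ⟨Ψ, hΨX, hΨY, hΨ⟩ := exists_ev (K := K)
      (S := Matrix (Fin q) (Fin q) (Polynomial C))
      (fun i => (ρ (X i)).map (fun c => Polynomial.monomial 1 c))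
      (fun i => (ρ (Y i)).map (fun c => Polynomial.monomial 1 c)) hXY'
    have hscale := ev_scale ρ ev hev Ψ hΨ
    haveI := hCd
    haveI := hSd
    have hdet := hJ1 K n d hd θ hθ C q Ψ (fun i => ρ (X i)) (fun i => ρ (Y i)) hΨX hΨY
    have hdet2 : Matrix.det (Matrix.of fun (i j : Fin n × Fin q) =>
        ∑ l ∈ Finset.range (e + 1), Polynomial.monomial l
          (((ρ : S →+* Matrix (Fin q) (Fin q) C)) (((P l).map ev) i.1 j.1) i.2 j.2)) = 1 := by
      rw [← hdet]
      congr 1
      ext1 i j
      simp only [Matrix.of_apply]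
      have h1 : J i.1 j.1 = ∑ l ∈ Finset.range (e + 1), P l i.1 j.1 := by
        conv_lhs => rw [hJsum]
        rw [Matrix.sum_apply]
      rw [← hJ, h1, map_sum, Matrix.sum_apply]
      refine Finset.sum_congr rfl fun l _ => ?_
      rw [hscale l _ (hPmem l i.1 j.1)]
      rfl
    have hfin := hDN S hDep C q (ρ : S →+* Matrix (Fin q) (Fin q) C) hρ n e
      (fun l => (P l).map ev) (fun l => (G l).map ev)
      (by
        show (P 0).map ev = 1
        rw [hP0]; exact Matrix.map_one ev (map_zero ev) (map_one ev))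
      (by
        intro l hl
        show (P l).map ev = 0
        rw [hPe l hl]; exact Matrix.map_zero ev (map_zero ev))
      (by
        show (G 0).map ev = 1
        rw [hG0]; exact Matrix.map_one ev (map_zero ev) (map_one ev))
      (by
        intro l
        have h := congrArg (fun M : Matrix (Fin n) (Fin n) (RR K n) => M.map ev) (hrec l)
        have h' : (ev : RR K n →+* S).mapMatrix
            (∑ x ∈ Finset.range (l + 2), P x * G (l + 1 - x)) = 0 := by
          rw [hrec l, map_zero]
        rw [map_sum] at h'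
        simp only [map_mul] at h'
        exact h')
      hdet2 k hk
    ext1 i j
    have h0 : ev (G k i j) = 0 := by
      have := congrFun (congrFun hfin i) j
      exact this
    exact ev_inj hli ev hev _ (hGmem k i j) h0
  rw [hJsum]
  refine isUnit_of_pieces P G e (n * e) hPe hGN ?_ ?_
  · rw [← hgmk]; exact m1
  · rw [← hgmk]; exact m2

end main

end W988.GE
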